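import Mathlib
import Pool.Agent.Helper16.CubicTensor
import Pool.Agent.Helper16.CubicPlanes

set_option autoImplicit false

/-!
Cubic fourfolds (MP_ffd2c1_ag): two Eckardt-like directions in the base plane give two disjoint
planes.
-/

namespace Pool.Agent.Helper76.TwoEck

open Module Submodule Pool.Agent.Helper16

section general

variable {V : Type*} [AddCommGroup V] [Module ℂ V]

/-- a criterion for a contradiction with smoothness -/
theorem sing4 [FiniteDimensional ℂ V] (hV : finrank ℂ V = 6) (c : Cub V) {S : Fin 3 → V}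
    {U : Fin 4 → V} (hS : LinearIndependent ℂ S) (hU : LinearIndependent ℂ U)
    (h : ∀ i j k, c.T (S i) (S j) (U k) = 0) : False := by
  have hS3 : finrank ℂ (span ℂ (Set.range S)) = 3 := by
    rw [finrank_span_eq_card hS, Fintype.card_fin]
  have hU4 : finrank ℂ (span ℂ (Set.range U)) = 4 := by
    rw [finrank_span_eq_card hU, Fintype.card_fin]
  have h1 : ∀ y ∈ span ℂ (Set.range U), ∀ i j, c.T (S i) (S j) y = 0 := by
    intro y hy i j
    have hle : span ℂ (Set.range U) ≤ LinearMap.ker (c.T (S i) (S j)) := by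
      rw [span_le]
      rintro _ ⟨k, rfl⟩
      exact LinearMap.mem_ker.mpr (h i j k)
    exact LinearMap.mem_ker.mp (hle hy)
  have h2 : ∀ y ∈ span ℂ (Set.range U), ∀ x ∈ span ℂ (Set.range S), ∀ i, c.T (S i) x y = 0 := by
    intro y hy x hx i
    have hle : span ℂ (Set.range S) ≤ LinearMap.ker ((c.T (S i)).flip y) := by
      rw [span_le]
      rintro _ ⟨k, rfl⟩
      exact LinearMap.mem_ker.mpr (h1 y hy i k)
    exact LinearMap.mem_ker.mp (hle hx)
  have h3 : ∀ x ∈ span ℂ (Set.range S), ∀ y ∈ span ℂ (Set.range U), c.T x x y = 0 := by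
    intro x hx y hy
    have hle : span ℂ (Set.range S) ≤ LinearMap.ker ((c.T.flip x).flip y) := by
      rw [span_le]
      rintro _ ⟨k, rfl⟩
      exact LinearMap.mem_ker.mpr (h2 y hy x hx k)
    exact LinearMap.mem_ker.mp (hle hx)
  exact c.ns2 (by omega) (by omega) h3

/-- a binary quartic form has a nontrivial zero -/
theorem quartic_zero (a0 a1 a2 a3 a4 : ℂ) : ∃ s r : ℂ, (s ≠ 0 ∨ r ≠ 0) ∧
    a0 * s ^ 4 + a1 * s ^ 3 * r + a2 * s ^ 2 * r ^ 2 + a3 * s * r ^ 3 + a4 * r ^ 4 = 0 := by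
  by_cases h4 : a4 = 0
  · exact ⟨0, 1, Or.inr one_ne_zero, by rw [h4]; ring⟩
  · let f : Polynomial ℂ := Polynomial.C a4 * Polynomial.X ^ 4 + Polynomial.C a3 * Polynomial.X ^ 3 +
      Polynomial.C a2 * Polynomial.X ^ 2 + Polynomial.C a1 * Polynomial.X + Polynomial.C a0
    have hdeg : f.degree = 4 := by
      change (Polynomial.C a4 * Polynomial.X ^ 4 + Polynomial.C a3 * Polynomial.X ^ 3 +
        Polynomial.C a2 * Polynomial.X ^ 2 + Polynomial.C a1 * Polynomial.X +
        Polynomial.C a0).degree = 4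
      compute_degree!
    obtain ⟨r, hr⟩ := IsAlgClosed.exists_root f (by rw [hdeg]; norm_num)
    refine ⟨1, r, Or.inl one_ne_zero, ?_⟩
    have h5 : a4 * r ^ 4 + a3 * r ^ 3 + a2 * r ^ 2 + a1 * r + a0 = 0 := by
      simpa [f, Polynomial.IsRoot] using hr
    linear_combination h5

/-- the cube of a combination of two vectors -/
theorem cube_comb (c : Cub V) (z t : ℂ) (d w : V) :
    c.T (z • d + t • w) (z • d + t • w) (z • d + t • w) =
      z ^ 3 * c.T d d d + 3 * z ^ 2 * t * c.T d d w + 3 * z * t ^ 2 * c.T d w w +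
        t ^ 3 * c.T w w w := by
  rw [c.cube_add]
  simp only [map_smul, LinearMap.smul_apply, smul_eq_mul]
  ring

theorem sq_comb (c : Cub V) (z t : ℂ) (d w x : V) :
    c.T x (z • d + t • w) (z • d + t • w) =
      z ^ 2 * c.T x d d + 2 * z * t * c.T x d w + t ^ 2 * c.T x w w := by
  simp only [map_add, map_smul, LinearMap.add_apply, LinearMap.smul_apply, smul_eq_mul]
  rw [c.s23 x w d]
  ring

theorem exists_degenerate (c : Cub V) (d e e' : V) : ∃ s r : ℂ, (s ≠ 0 ∨ r ≠ 0) ∧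
    (3 * c.T d (s • e + r • e') (s • e + r • e')) ^ 2 =
      4 * (3 * c.T d d (s • e + r • e')) *
        c.T (s • e + r • e') (s • e + r • e') (s • e + r • e') := by
  set p0 := c.T d e e
  set p1 := c.T d e e'
  set p2 := c.T d e' e'
  set q0 := c.T d d e
  set q1 := c.T d d e'
  set r0 := c.T e e e
  set r1 := c.T e e e'
  set r2 := c.T e e' e'
  set r3 := c.T e' e' e'
  obtain ⟨s, r, hsr, h⟩ := quartic_zero
    (9 * p0 ^ 2 - 12 * q0 * r0)
    (36 * p0 * p1 - 12 * (3 * q0 * r1 + q1 * r0))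
    (9 * (2 * p0 * p2 + 4 * p1 ^ 2) - 12 * (3 * q0 * r2 + 3 * q1 * r1))
    (36 * p1 * p2 - 12 * (q0 * r3 + 3 * q1 * r2))
    (9 * p2 ^ 2 - 12 * q1 * r3)
  refine ⟨s, r, hsr, ?_⟩
  rw [cube_comb, sq_comb]
  simp only [map_add, map_smul, smul_eq_mul]
  linear_combination h

/-- the cube on the span of `u, u'` and `V1` -/
theorem cube_K (c : Cub V) {u u' : V} {V1 : Submodule ℂ V}
    (hu3 : c.T u u u = 0) (hu3' : c.T u' u' u' = 0) (huu : ∀ x, c.T u u' x = 0)
    (h0 : ∀ v ∈ V1, ∀ w ∈ V1, c.T u v w = 0) (h0' : ∀ v ∈ V1, ∀ w ∈ V1, c.T u' v w = 0)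
    (h1 : ∀ v ∈ V1, c.T u u v = 0) {q : V} (hq : q ∈ V1) (x y : ℂ) :
    c.T (x • u + y • u' + q) (x • u + y • u' + q) (x • u + y • u' + q) =
      3 * y ^ 2 * c.T u' u' q + c.T q q q := by
  rw [c.cube_add, cube_comb]
  simp only [map_add, map_smul, LinearMap.add_apply, LinearMap.smul_apply, smul_eq_mul]
  have e1 : c.T u u u' = 0 := by rw [c.s23]; exact huu u
  have e2 : c.T u' u q = 0 := by rw [c.s12]; exact huu q
  rw [hu3, hu3', huu, huu, e1, e2, h1 q hq, h0 q hq q hq, h0' q hq q hq]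
  ring

/-- a plane through `u` near the plane spanned by `u, u', d` -/
theorem lemR [FiniteDimensional ℂ V] (hV : finrank ℂ V = 6) (c : Cub V) {u u' d : V}
    {V1 : Submodule ℂ V}
    (hu3 : c.T u u u = 0) (hu3' : c.T u' u' u' = 0) (huu : ∀ x, c.T u u' x = 0)
    (hd3 : c.T d d d = 0) (hd : d ∈ V1) (hd0 : d ≠ 0) (h3 : finrank ℂ V1 = 3)
    (h0 : ∀ v ∈ V1, ∀ w ∈ V1, c.T u v w = 0) (h0' : ∀ v ∈ V1, ∀ w ∈ V1, c.T u' v w = 0)
    (h1 : ∀ v ∈ V1, c.T u u v = 0) (h1d : c.T u' u' d = 0)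
    (hdis : ∀ x y : ℂ, x • u + y • u' ∈ V1 → x = 0 ∧ y = 0) :
    ∃ w ∈ V1, ∃ a b : ℂ, c.T u' u' w ≠ 0 ∧ ∀ x y z : ℂ,
      c.T (x • u + y • (d + a • u') + z • (w + b • u'))
        (x • u + y • (d + a • u') + z • (w + b • u'))
        (x • u + y • (d + a • u') + z • (w + b • u')) = 0 := by
  -- a complement of `d` in `V1`
  obtain ⟨f, hf1, -⟩ := exists_dual_one (⊥ : Submodule ℂ V) (x := d) (by simpa using hd0)
  have hE : finrank ℂ (V1 ⊓ LinearMap.ker f : Submodule ℂ V) = 2 := by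
    have := finrank_inf_ker V1 f ⟨d, hd, by rw [hf1]; exact one_ne_zero⟩
    omega
  let bs := Module.finBasisOfFinrankEq ℂ (V1 ⊓ LinearMap.ker f : Submodule ℂ V) hE
  obtain ⟨s, r, hsr, hdeg⟩ := exists_degenerate c d (bs 0 : V) (bs 1 : V)
  set w : V := s • (bs 0 : V) + r • (bs 1 : V) with hw
  have hwE : w ∈ V1 ⊓ LinearMap.ker f :=
    Submodule.add_mem _ (Submodule.smul_mem _ _ (bs 0).2) (Submodule.smul_mem _ _ (bs 1).2)
  have hwV : w ∈ V1 := hwE.1
  have hfw : f w = 0 := hwE.2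
  have hw0 : w ≠ 0 := by
    intro h
    have h2 : s • bs 0 + r • bs 1 = 0 := Subtype.ext h
    have h3 := bs.linearIndependent
    have h4 : LinearIndependent ℂ ![bs 0, bs 1] := by
      have : (![bs 0, bs 1] : Fin 2 → _) = bs := by
        funext i
        fin_cases i <;> rfl
      rw [this]
      exact h3
    have h5 := LinearIndependent.pair_iff.mp h4 s r h2
    rcases hsr with h | h
    · exact h h5.1
    · exact h h5.2
  have hdw : ∀ z t : ℂ, z • d + t • w = 0 → z = 0 ∧ t = 0 := by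
    intro z t h
    have h2 : f (z • d + t • w) = 0 := by rw [h, map_zero]
    rw [map_add, map_smul, map_smul, hf1, hfw] at h2
    have h3 : z = 0 := by simpa using h2
    refine ⟨h3, ?_⟩
    rw [h3, zero_smul, zero_add] at h
    exact (smul_eq_zero.mp h).resolve_right hw0
  clear_value w
  set A := 3 * c.T d d w with hA
  set B := 3 * c.T d w w with hB
  set C := c.T w w w with hC
  obtain ⟨α, hα⟩ := IsAlgClosed.exists_pow_nat_eq (-A) (n := 2) (by norm_num)
  obtain ⟨β, hβ, hαβ⟩ : ∃ β : ℂ, β ^ 2 = -C ∧ 2 * α * β = -B := by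
    obtain ⟨β, hβ⟩ := IsAlgClosed.exists_pow_nat_eq (-C) (n := 2) (by norm_num)
    have h2 : (2 * α * β) ^ 2 = (-B) ^ 2 := by
      rw [neg_sq, hdeg]
      calc (2 * α * β) ^ 2 = 4 * α ^ 2 * β ^ 2 := by ring
        _ = 4 * A * C := by rw [hα, hβ]; ring
    rcases sq_eq_sq_iff_eq_or_eq_neg.mp h2 with h | h
    · exact ⟨β, hβ, h⟩
    · exact ⟨-β, by rw [neg_sq, hβ], by rw [mul_neg, h]; ring⟩
  have hG : ∀ z t : ℂ, c.T (z • d + t • w) (z • d + t • w) (z • d + t • w) =
      - t * (α * z + β * t) ^ 2 := by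
    intro z t
    rw [cube_comb, hd3]
    linear_combination (z ^ 2 * t) * hα + (t ^ 3) * hβ + (z * t ^ 2) * hαβ
  -- the form does not vanish at `w`
  have hne : c.T u' u' w ≠ 0 := by
    intro hw'
    obtain ⟨z0, t0, hzt, hq1⟩ : ∃ z0 t0 : ℂ, (z0 ≠ 0 ∨ t0 ≠ 0) ∧ α * z0 + β * t0 = 0 := by
      by_cases hα0 : α = 0
      · exact ⟨1, 0, Or.inl one_ne_zero, by rw [hα0]; ring⟩
      · exact ⟨β, -α, Or.inr (neg_ne_zero.mpr hα0), by ring⟩
    set q : V := z0 • d + t0 • w with hq
    have hqV : q ∈ V1 := V1.add_mem (V1.smul_mem _ hd) (V1.smul_mem _ hwV)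
    have hq0 : q ≠ 0 := by
      intro h
      have h2 := hdw z0 t0 (by rw [← hq]; exact h)
      rcases hzt with h' | h'
      · exact h' h2.1
      · exact h' h2.2
    have hqd : c.T q q d = 0 := by
      have e1 : c.T q q d = z0 ^ 2 * c.T d d d + 2 * z0 * t0 * c.T d d w + t0 ^ 2 * c.T d w w := by
        rw [c.rot, c.rot, hq, sq_comb]
      rw [e1, hd3]
      linear_combination (-(2 * z0 * t0 / 3)) * hA + (-(t0 ^ 2 / 3)) * hB +
        (2 * z0 * t0 / 3) * hα + (t0 ^ 2 / 3) * hαβ + (-(2 * t0 * α / 3)) * hq1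
    have hqw : c.T q q w = 0 := by
      have e1 : c.T q q w = z0 ^ 2 * c.T d d w + 2 * z0 * t0 * c.T d w w + t0 ^ 2 * c.T w w w := by
        rw [c.s13 q q w, hq, sq_comb, c.s13 w d d, c.s12 w d w]
      rw [e1]
      linear_combination (-(z0 ^ 2 / 3)) * hA + (-(2 * z0 * t0 / 3)) * hB + (-(t0 ^ 2)) * hC +
        (z0 ^ 2 / 3) * hα + (2 * z0 * t0 / 3) * hαβ + (t0 ^ 2) * hβ +
        (-((α * z0 + 3 * β * t0) / 3)) * hq1
    have hu'q : c.T u' u' q = 0 := by
      rw [hq, map_add, map_smul, map_smul, h1d, hw', smul_zero, smul_zero, add_zero]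
    refine sing4 hV c (S := ![u, u', q]) (U := ![u, u', d, w]) ?_ ?_ ?_
    · rw [Fintype.linearIndependent_iff]
      intro g hg
      simp only [Fin.sum_univ_three, Matrix.cons_val_zero, Matrix.cons_val_one,
        Matrix.cons_val_two, Matrix.head_cons, Matrix.tail_cons] at hg
      have h2 : g 0 • u + g 1 • u' ∈ V1 := by
        have h3 : g 0 • u + g 1 • u' = -(g 2 • q) := by
          rw [eq_neg_iff_add_eq_zero]; exact hg
        rw [h3]
        exact V1.neg_mem (V1.smul_mem _ hqV)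
      obtain ⟨h4, h5⟩ := hdis _ _ h2
      rw [h4, h5, zero_smul, zero_smul, zero_add, zero_add] at hg
      have h6 : g 2 = 0 := (smul_eq_zero.mp hg).resolve_right hq0
      intro i
      fin_cases i
      · exact h4
      · exact h5
      · exact h6
    · rw [Fintype.linearIndependent_iff]
      intro g hg
      simp only [Fin.sum_univ_four, Matrix.cons_val_zero, Matrix.cons_val_one,
        Matrix.cons_val_two, Matrix.cons_val_three, Matrix.head_cons, Matrix.tail_cons] at hg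
      have h2 : g 0 • u + g 1 • u' ∈ V1 := by
        have h3 : g 0 • u + g 1 • u' = -(g 2 • d + g 3 • w) := by
          rw [eq_neg_iff_add_eq_zero, ← add_assoc]; exact hg
        rw [h3]
        exact V1.neg_mem (V1.add_mem (V1.smul_mem _ hd) (V1.smul_mem _ hwV))
      obtain ⟨h4, h5⟩ := hdis _ _ h2
      rw [h4, h5, zero_smul, zero_smul, zero_add, zero_add] at hg
      obtain ⟨h6, h7⟩ := hdw _ _ hg
      intro i
      fin_cases i
      · exact h4
      · exact h5
      · exact h6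
      · exact h7
    · have a1 : c.T u u u' = 0 := by rw [c.s23]; exact huu u
      have a2 : c.T u u d = 0 := h1 d hd
      have a3 : c.T u u w = 0 := h1 w hwV
      have a4 : c.T u q u = 0 := by rw [c.s23]; exact h1 q hqV
      have a5 : c.T u q u' = 0 := by rw [c.s23]; exact huu q
      have a6 : c.T u q d = 0 := h0 q hqV d hd
      have a7 : c.T u q w = 0 := h0 q hqV w hwV
      have a8 : ∀ x, c.T u' u x = 0 := fun x => by rw [c.s12]; exact huu x
      have a9 : c.T u' u' u = 0 := by rw [c.s23]; exact a8 u'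
      have b1 : c.T u' q u = 0 := by rw [c.s23]; exact a8 q
      have b2 : c.T u' q u' = 0 := by rw [c.s23]; exact hu'q
      have b3 : c.T u' q d = 0 := h0' q hqV d hd
      have b4 : c.T u' q w = 0 := h0' q hqV w hwV
      have b5 : ∀ x, c.T q u x = c.T u q x := fun x => c.s12 q u x
      have b6 : ∀ x, c.T q u' x = c.T u' q x := fun x => c.s12 q u' x
      have b7 : c.T q q u = 0 := by rw [c.s13]; exact h0 q hqV q hqV
      have b8 : c.T q q u' = 0 := by rw [c.s13]; exact h0' q hqV q hqV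
      intro i j k
      fin_cases i <;> fin_cases j <;> fin_cases k <;>
        simp [hu3, hu3', huu, a1, a2, a3, a4, a5, a6, a7, a8, a9, b1, b2, b3, b4, b5, b6, b7, b8,
          h1d, hw', hqd, hqw]
  -- the plane
  obtain ⟨γ, hγ⟩ := IsAlgClosed.exists_pow_nat_eq (3 * c.T u' u' w) (n := 2) (by norm_num)
  have hγ0 : γ ≠ 0 := by
    rintro rfl
    apply hne
    have : (3 : ℂ) * c.T u' u' w = 0 := by rw [← hγ]; ring
    exact (mul_eq_zero.mp this).resolve_left (by norm_num)
  refine ⟨w, hwV, α / γ, β / γ, hne, ?_⟩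
  intro x y z
  have e1 : x • u + y • (d + (α / γ) • u') + z • (w + (β / γ) • u') =
      x • u + ((α * y + β * z) / γ) • u' + (y • d + z • w) := by
    module
  rw [e1, cube_K c hu3 hu3' huu h0 h0' h1 (V1.add_mem (V1.smul_mem _ hd) (V1.smul_mem _ hwV)), hG]
  rw [map_add, map_smul, map_smul, h1d, smul_zero, zero_add, smul_eq_mul]
  field_simp
  linear_combination (-(z * (α * y + β * z) ^ 2)) * hγ

/-- the span of three independent vectors on which the cubic vanishes -/
theorem pl_span {c : Cub V} {a b d : V} (hli : LinearIndependent ℂ ![a, b, d])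
    (h : ∀ x y z : ℂ, c.T (x • a + y • b + z • d) (x • a + y • b + z • d)
      (x • a + y • b + z • d) = 0) : c.Pl (span ℂ (Set.range ![a, b, d])) := by
  refine ⟨by rw [finrank_span_eq_card hli, Fintype.card_fin], ?_⟩
  intro v hv
  rw [Submodule.mem_span_range_iff_exists_fun] at hv
  obtain ⟨g, rfl⟩ := hv
  have e : ∑ i, g i • (![a, b, d] : Fin 3 → V) i = g 0 • a + g 1 • b + g 2 • d := by
    simp [Fin.sum_univ_three]
  rw [e]
  exact h _ _ _

theorem mem_span3 {a b d v : V} (hv : v ∈ span ℂ (Set.range ![a, b, d])) :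
    ∃ x y z : ℂ, v = x • a + y • b + z • d := by
  rw [Submodule.mem_span_range_iff_exists_fun] at hv
  obtain ⟨g, rfl⟩ := hv
  exact ⟨g 0, g 1, g 2, by simp [Fin.sum_univ_three]⟩

end general

/-- Two independent vectors `u, u'` of the base plane with `T(u, u', x) = 0` for all `x`, in a
plane `K` whose complement `V'` satisfies `T(K, V', V') = 0`: the cubic contains two disjoint
planes. -/
theorem disjoint_of_two_eck {c : Cub (I6 → ℂ)} (hP : c.Iso P0) {K V' : Submodule ℂ (I6 → ℂ)}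
    (hKV : IsCompl K V') (hK : K ≤ P0) (h2 : finrank ℂ K = 2)
    (h : ∀ u ∈ K, ∀ v ∈ V', ∀ w ∈ V', c.T u v w = 0) {u u' : I6 → ℂ} (hu : u ∈ K)
    (hu' : u' ∈ K) (hli : LinearIndependent ℂ ![u, u']) (huu : ∀ x, c.T u u' x = 0) :
    ∃ A B : Submodule ℂ (I6 → ℂ), c.Pl A ∧ c.Pl B ∧ A ⊓ B = ⊥ := by
  have hV : finrank ℂ (I6 → ℂ) = 6 := finrank_I6
  have hV'4 : finrank ℂ V' = 4 := by
    have := Submodule.finrank_add_eq_of_isCompl hKV
    omega
  have hpair := LinearIndependent.pair_iff.mp hli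
  have huP : u ∈ P0 := hK hu
  have hu'P : u' ∈ P0 := hK hu'
  have hu3 : c.T u u u = 0 := hP u huP
  have hu3' : c.T u' u' u' = 0 := hP u' hu'P
  have hu0 : u ≠ 0 := by
    intro h0
    have := (hpair 1 0 (by rw [h0]; simp)).1
    exact one_ne_zero this
  have hu0' : u' ≠ 0 := by
    intro h0
    have := (hpair 0 1 (by rw [h0]; simp)).2
    exact one_ne_zero this
  -- combinations of `u, u'` in `V'` are trivial
  have hdis : ∀ x y : ℂ, x • u + y • u' ∈ V' → x = 0 ∧ y = 0 := by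
    intro x y hxy
    have h1 : x • u + y • u' ∈ K := K.add_mem (K.smul_mem _ hu) (K.smul_mem _ hu')
    exact hpair x y (Submodule.disjoint_def.mp hKV.disjoint _ h1 hxy)
  -- the linear forms do not vanish on `V'`
  have hform : ∀ a ∈ K, a ≠ 0 → ∃ x ∈ V', c.T a a x ≠ 0 := by
    intro a ha ha0
    obtain ⟨x, hx⟩ := c.ns a ha0
    have hx' : x ∈ K ⊔ V' := by rw [hKV.sup_eq_top]; exact Submodule.mem_top
    obtain ⟨k, hk, v, hv, rfl⟩ := Submodule.mem_sup.mp hx'
    refine ⟨v, hv, ?_⟩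
    rw [map_add, hP.two (hK ha) (hK hk), zero_add] at hx
    exact hx
  -- a vector `d` of the base plane in `V'`
  obtain ⟨d, hdP, hdV', hd0⟩ : ∃ d ∈ P0, d ∈ V' ∧ d ≠ 0 := by
    have h1 := Submodule.finrank_sup_add_finrank_inf_eq P0 V'
    have h3 := Submodule.finrank_le (P0 ⊔ V')
    rw [finrank_P0, hV'4] at h1
    have h4 : 0 < finrank ℂ (P0 ⊓ V' : Submodule ℂ (I6 → ℂ)) := by omega
    have h5 : (P0 ⊓ V' : Submodule ℂ (I6 → ℂ)) ≠ ⊥ := by
      intro h0
      rw [h0, finrank_bot] at h4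
      exact lt_irrefl _ h4
    obtain ⟨d, hd, hd0⟩ := Submodule.exists_mem_ne_zero_of_ne_bot h5
    exact ⟨d, hd.1, hd.2, hd0⟩
  -- the hyperplanes
  set l0 : Dual ℂ (I6 → ℂ) := c.T u u with hl0
  set l1 : Dual ℂ (I6 → ℂ) := c.T u' u' with hl1
  have hd00 : c.T u u d = 0 := hP.two huP hdP
  have hd11 : c.T u' u' d = 0 := hP.two hu'P hdP
  have hV1 : finrank ℂ (V' ⊓ LinearMap.ker l0 : Submodule ℂ (I6 → ℂ)) = 3 := by
    have := finrank_inf_ker V' l0 (hform u hu hu0)
    omega
  have hV2 : finrank ℂ (V' ⊓ LinearMap.ker l1 : Submodule ℂ (I6 → ℂ)) = 3 := by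
    have := finrank_inf_ker V' l1 (hform u' hu' hu0')
    omega
  -- a vector `e` in the common kernel
  obtain ⟨e, heV, he0, he1, hde⟩ : ∃ e ∈ V', c.T u u e = 0 ∧ c.T u' u' e = 0 ∧
      ∀ z t : ℂ, z • d + t • e = 0 → z = 0 ∧ t = 0 := by
    have h1 : 2 ≤ finrank ℂ ((V' ⊓ LinearMap.ker l0) ⊓ LinearMap.ker l1 :
        Submodule ℂ (I6 → ℂ)) := by
      by_cases hex : ∃ x ∈ V' ⊓ LinearMap.ker l0, l1 x ≠ 0
      · have := finrank_inf_ker (V' ⊓ LinearMap.ker l0) l1 hex
        omega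
      · push Not at hex
        have h3 : (V' ⊓ LinearMap.ker l0) ⊓ LinearMap.ker l1 = V' ⊓ LinearMap.ker l0 := by
          rw [inf_eq_left]
          exact fun x hx => LinearMap.mem_ker.mpr (hex x hx)
        rw [h3]
        omega
    have h3 : ¬ ((V' ⊓ LinearMap.ker l0) ⊓ LinearMap.ker l1 ≤ (ℂ ∙ d : Submodule ℂ (I6 → ℂ))) := by
      intro hle
      have h4 := Submodule.finrank_mono hle
      have h5 : finrank ℂ (ℂ ∙ d : Submodule ℂ (I6 → ℂ)) = 1 := finrank_span_singleton hd0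
      omega
    obtain ⟨e, he, hed⟩ := Set.not_subset.mp h3
    have hev : e ∈ (V' ⊓ LinearMap.ker l0) ⊓ LinearMap.ker l1 := he
    refine ⟨e, hev.1.1, hev.1.2, hev.2, ?_⟩
    intro z t hzt
    have ht : t = 0 := by
      by_contra ht
      apply hed
      have : e = (-(t⁻¹ * z)) • d := by
        have h6 : t • e = -(z • d) := by
          rw [eq_neg_iff_add_eq_zero, add_comm]; exact hzt
        calc e = t⁻¹ • (t • e) := by rw [smul_smul, inv_mul_cancel₀ ht, one_smul]
          _ = (-(t⁻¹ * z)) • d := by rw [h6, smul_neg, smul_smul, neg_smul]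
      rw [this]
      exact Submodule.smul_mem _ _ (Submodule.mem_span_singleton_self d)
    rw [ht, zero_smul, add_zero] at hzt
    exact ⟨(smul_eq_zero.mp hzt).resolve_right hd0, ht⟩
  have hddd : c.T d d d = 0 := hP d hdP
  -- `T(d, d, e) ≠ 0`
  have hdde : c.T d d e ≠ 0 := by
    intro hcon
    refine sing4 hV c (S := ![u, u', d]) (U := ![u, u', d, e]) ?_ ?_ ?_
    · rw [Fintype.linearIndependent_iff]
      intro g hg
      simp only [Fin.sum_univ_three, Matrix.cons_val_zero, Matrix.cons_val_one,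
        Matrix.cons_val_two, Matrix.head_cons, Matrix.tail_cons] at hg
      have h3 : g 0 • u + g 1 • u' ∈ V' := by
        have h4 : g 0 • u + g 1 • u' = -(g 2 • d) := by
          rw [eq_neg_iff_add_eq_zero]; exact hg
        rw [h4]
        exact V'.neg_mem (V'.smul_mem _ hdV')
      obtain ⟨h4, h5⟩ := hdis _ _ h3
      rw [h4, h5, zero_smul, zero_smul, zero_add, zero_add] at hg
      have h6 : g 2 = 0 := (smul_eq_zero.mp hg).resolve_right hd0
      intro i
      fin_cases i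
      · exact h4
      · exact h5
      · exact h6
    · rw [Fintype.linearIndependent_iff]
      intro g hg
      simp only [Fin.sum_univ_four, Matrix.cons_val_zero, Matrix.cons_val_one,
        Matrix.cons_val_two, Matrix.cons_val_three, Matrix.head_cons, Matrix.tail_cons] at hg
      have h3 : g 0 • u + g 1 • u' ∈ V' := by
        have h4 : g 0 • u + g 1 • u' = -(g 2 • d + g 3 • e) := by
          rw [eq_neg_iff_add_eq_zero, ← add_assoc]; exact hg
        rw [h4]
        exact V'.neg_mem (V'.add_mem (V'.smul_mem _ hdV') (V'.smul_mem _ heV))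
      obtain ⟨h4, h5⟩ := hdis _ _ h3
      rw [h4, h5, zero_smul, zero_smul, zero_add, zero_add] at hg
      obtain ⟨h6, h7⟩ := hde _ _ hg
      intro i
      fin_cases i
      · exact h4
      · exact h5
      · exact h6
      · exact h7
    · have k1 : ∀ x, c.T u' u x = 0 := fun x => by rw [c.s12]; exact huu x
      have k2 : c.T u d e = 0 := h u hu d hdV' e heV
      have k3 : c.T u' d e = 0 := h u' hu' d hdV' e heV
      have k4 : ∀ x, c.T d u x = c.T u d x := fun x => c.s12 d u x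
      have k5 : ∀ x, c.T d u' x = c.T u' d x := fun x => c.s12 d u' x
      have k6 : ∀ x ∈ P0, ∀ y ∈ P0, ∀ z ∈ P0, c.T x y z = 0 := fun x hx y hy z hz =>
        hP.three hx hy hz
      intro i j k
      fin_cases i <;> fin_cases j <;> fin_cases k <;>
        first
        | exact k6 _ (by assumption) _ (by assumption) _ (by assumption)
        | exact he0
        | exact he1
        | exact huu e
        | exact k1 e
        | exact k2
        | exact k3
        | exact (k4 e).trans k2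
        | exact (k5 e).trans k3
        | exact hcon
  -- the second isotropic vector
  obtain ⟨ζ, hζ⟩ : ∃ ζ : ℂ, c.T (ζ • d + (1 : ℂ) • e) (ζ • d + (1 : ℂ) • e)
      (ζ • d + (1 : ℂ) • e) = 0 := by
    let f : Polynomial ℂ := Polynomial.C (3 * c.T d d e) * Polynomial.X ^ 2 +
      Polynomial.C (3 * c.T d e e) * Polynomial.X + Polynomial.C (c.T e e e)
    have hne : (3 : ℂ) * c.T d d e ≠ 0 := mul_ne_zero (by norm_num) hdde
    have hdeg : f.degree = 2 := Polynomial.degree_quadratic hne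
    obtain ⟨r, hr⟩ := IsAlgClosed.exists_root f (by rw [hdeg]; norm_num)
    refine ⟨r, ?_⟩
    have h5 : 3 * c.T d d e * r ^ 2 + 3 * c.T d e e * r + c.T e e e = 0 := by
      simpa [f, Polynomial.IsRoot] using hr
    rw [cube_comb, hddd]
    linear_combination h5
  set d' : I6 → ℂ := ζ • d + (1 : ℂ) • e with hd'
  have hd'V : d' ∈ V' := V'.add_mem (V'.smul_mem _ hdV') (V'.smul_mem _ heV)
  have hd'0 : c.T u u d' = 0 := by
    rw [hd', map_add, map_smul, map_smul, hd00, he0, smul_zero, smul_zero, add_zero]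
  have hd'1 : c.T u' u' d' = 0 := by
    rw [hd', map_add, map_smul, map_smul, hd11, he1, smul_zero, smul_zero, add_zero]
  have hdd' : ∀ z t : ℂ, z • d = t • d' → z = 0 ∧ t = 0 := by
    intro z t hzt
    have h3 : (z - t * ζ) • d + (-t) • e = 0 := by
      have h4 : z • d - t • d' = 0 := sub_eq_zero.mpr hzt
      rw [hd'] at h4
      rw [← h4]
      module
    obtain ⟨h5, h6⟩ := hde _ _ h3
    have h7 : t = 0 := neg_eq_zero.mp h6
    rw [h7, zero_mul, sub_zero] at h5
    exact ⟨h5, h7⟩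
  have hd'ne : d' ≠ 0 := by
    intro h0
    have := (hdd' 0 1 (by rw [h0]; simp)).2
    exact one_ne_zero this
  have hu'u : ∀ x, c.T u' u x = 0 := fun x => by rw [c.s12]; exact huu x
  -- the two planes
  obtain ⟨w1, hw1, a, b, hw1ne, hF1⟩ := lemR hV c (V1 := V' ⊓ LinearMap.ker l0) hu3 hu3' huu hddd
    ⟨hdV', hd00⟩ hd0 hV1 (fun v hv w hw => h u hu v hv.1 w hw.1)
    (fun v hv w hw => h u' hu' v hv.1 w hw.1) (fun v hv => hv.2) hd11
    (fun x y hxy => hdis x y hxy.1)
  obtain ⟨w2, hw2, a', b', hw2ne, hF2⟩ := lemR hV c (V1 := V' ⊓ LinearMap.ker l1) hu3' hu3 hu'u hζ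
    ⟨hd'V, hd'1⟩ hd'ne hV2 (fun v hv w hw => h u' hu' v hv.1 w hw.1)
    (fun v hv w hw => h u hu v hv.1 w hw.1) (fun v hv => hv.2) hd'0
    (fun x y hxy => (hdis y x (by rw [add_comm]; exact hxy.1)).symm)
  have hw1V : w1 ∈ V' := hw1.1
  have hw2V : w2 ∈ V' := hw2.1
  have hw10 : c.T u u w1 = 0 := hw1.2
  have hw21 : c.T u' u' w2 = 0 := hw2.2
  -- the key computation
  have key : ∀ x y z x' y' z' : ℂ,
      x • u + y • (d + a • u') + z • (w1 + b • u') =
        x' • u' + y' • (d' + a' • u) + z' • (w2 + b' • u) →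
      x = 0 ∧ y = 0 ∧ z = 0 ∧ x' = 0 ∧ y' = 0 ∧ z' = 0 := by
    intro x y z x' y' z' heq
    have h3 : (x - (y' * a' + z' * b')) • u + (y * a + z * b - x') • u' =
        y' • d' + z' • w2 - (y • d + z • w1) := by
      have h4 := sub_eq_zero.mpr heq
      rw [← sub_eq_zero, ← h4]
      module
    have h4 : (x - (y' * a' + z' * b')) • u + (y * a + z * b - x') • u' ∈ V' := by
      rw [h3]
      exact V'.sub_mem (V'.add_mem (V'.smul_mem _ hd'V) (V'.smul_mem _ hw2V))
        (V'.add_mem (V'.smul_mem _ hdV') (V'.smul_mem _ hw1V))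
    obtain ⟨h5, h6⟩ := hdis _ _ h4
    rw [h5, h6, zero_smul, zero_smul, add_zero] at h3
    have h7 : c.T u u (y' • d' + z' • w2 - (y • d + z • w1)) = 0 := by rw [← h3, map_zero]
    have h8 : c.T u' u' (y' • d' + z' • w2 - (y • d + z • w1)) = 0 := by rw [← h3, map_zero]
    simp only [map_sub, map_add, map_smul, smul_eq_mul, hd'0, hd00, hw10, hd'1, hd11, hw21,
      mul_zero, zero_add, sub_zero, add_zero, zero_sub, neg_eq_zero] at h7 h8
    have hz' : z' = 0 := (mul_eq_zero.mp h7).resolve_right hw2ne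
    have hz : z = 0 := (mul_eq_zero.mp h8).resolve_right hw1ne
    rw [hz, hz', zero_smul, zero_smul, add_zero, add_zero] at h3
    obtain ⟨hy, hy'⟩ := hdd' y y' (sub_eq_zero.mp h3.symm).symm
    rw [hy', hz', zero_mul, zero_mul, add_zero, sub_zero] at h5
    rw [hy, hz, zero_mul, zero_mul, add_zero, zero_sub, neg_eq_zero] at h6
    exact ⟨h5, hy, hz, h6, hy', hz'⟩
  have hli1 : LinearIndependent ℂ ![u, d + a • u', w1 + b • u'] := by
    rw [Fintype.linearIndependent_iff]
    intro g hg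
    simp only [Fin.sum_univ_three, Matrix.cons_val_zero, Matrix.cons_val_one,
      Matrix.cons_val_two, Matrix.head_cons, Matrix.tail_cons] at hg
    have h3 := key (g 0) (g 1) (g 2) 0 0 0 (by rw [hg]; simp)
    intro i
    fin_cases i
    · exact h3.1
    · exact h3.2.1
    · exact h3.2.2.1
  have hli2 : LinearIndependent ℂ ![u', d' + a' • u, w2 + b' • u] := by
    rw [Fintype.linearIndependent_iff]
    intro g hg
    simp only [Fin.sum_univ_three, Matrix.cons_val_zero, Matrix.cons_val_one,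
      Matrix.cons_val_two, Matrix.head_cons, Matrix.tail_cons] at hg
    have h3 := key 0 0 0 (g 0) (g 1) (g 2) (by rw [hg]; simp)
    intro i
    fin_cases i
    · exact h3.2.2.2.1
    · exact h3.2.2.2.2.1
    · exact h3.2.2.2.2.2
  refine ⟨_, _, pl_span hli1 hF1, pl_span hli2 hF2, ?_⟩
  rw [eq_bot_iff]
  intro v hv
  obtain ⟨x, y, z, h3⟩ := mem_span3 hv.1
  obtain ⟨x', y', z', h4⟩ := mem_span3 hv.2
  have h5 := key x y z x' y' z' (h3.symm.trans h4)
  rw [h3, h5.1, h5.2.1, h5.2.2.1]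
  simp

end Pool.Agent.Helper76.TwoEck
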